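import Pool.Agent.Helper335.ModHyp.Final

/-! # MP_4e9c6d_co: every matroid with a modular hyperplane, representable or not

Let `H` be a modular hyperplane of a finite simple matroid `M` (no representability is assumed) and
`1 ≤ m ≤ |E ∖ H|`. Then `M` has a restriction which is isomorphic to the simplification of a
quotient of `M(K_{m+1})` and whose characteristic polynomial vanishes at `m`. So every simple
matroid with a modular hyperplane with `p(M; m) ≤ 0`, all of whose proper restrictions `N` have
`p(N; m) > 0`, is the simplification of a quotient of `M(K_{m+1})`. For `m = q ^ k` this contains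
the negative answer to Whittle's question. -/

namespace Pool.Agent.Results.MP_4e9c6d_co.ModularHyperplanes

open Set Polynomial Pool.Agent.Helper236 Pool.Agent.Helper335.ModHyp

universe u

/-- `M` is a tangential `k`-block over the finite field `F`: it is finite, simple and representable
over `F`, its critical exponent is larger than `k`, and `M / G` has critical exponent at most `k`
for every non-empty flat `G`. -/
def IsTangentialBlock (F : Type) [Field F] (k : ℕ) {α : Type u} (M : Matroid α) : Prop :=
  M.Finite ∧ IsSimple M ∧ Representable F M ∧ (k : ℕ∞) < critExp M (Nat.card F) ∧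
    ∀ G, M.IsFlat G → G.Nonempty → critExp (M.contract G) (Nat.card F) ≤ k

theorem minimal_normal (F : Type) [Field F] [Finite F] (k : ℕ) {α : Type u} (M : Matroid α)
    (hfin : M.Finite) (hs : IsSimple M) (hrep : Representable F M)
    (hk : (k : ℕ∞) < critExp M (Nat.card F))
    (hmin : ∀ Y, Y ⊂ M.E → critExp (M.restrict Y) (Nat.card F) ≤ k)
    (hH : ∃ H, IsModularHyperplane M H) : IsNormal (Nat.card F) k M := by
  obtain ⟨H, hH⟩ := hH
  obtain ⟨n, v, hv⟩ := exists_rep hrep
  have h1 : (charPoly M).eval (((Nat.card F) ^ k : ℕ) : ℤ) ≤ 0 := ((block_iff hv k).1 hk).le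
  have hm : 1 ≤ (Nat.card F) ^ k := Nat.one_le_pow _ _ Nat.card_pos
  refine (minimal_of_modular M hs hH hm h1 ?_).1
  intro Y hY
  have hfinY : (M.restrict Y).Finite := ⟨M.ground_finite.subset hY.1⟩
  have h2 := (critExp_le_iff (rep_restrict hv hY.1) k).1 (hmin Y hY)
  have h3 := (eval_pos_iff (rep_restrict hv hY.1) k).2 h2
  push_cast
  exact h3

theorem tangential_normal (F : Type) [Field F] [Finite F] (k : ℕ) {α : Type u} (M : Matroid α)
    (hM : IsTangentialBlock F k M) (hH : ∃ H, IsModularHyperplane M H) :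
    IsNormal (Nat.card F) k M := by
  obtain ⟨hfin, hs, hrep', hblock, htan⟩ := hM
  obtain ⟨n, v, hrep⟩ := exists_rep hrep'
  refine minimal_normal F k M hfin hs hrep' hblock ?_ hH
  intro Y hY
  have hfinY : (M.restrict Y).Finite := ⟨M.ground_finite.subset hY.1⟩
  rw [critExp_le_iff (rep_restrict hrep hY.1) k]
  obtain ⟨e, he, heY⟩ := Set.exists_of_ssubset hY
  have hcl : M.closure {e} = {e} := by
    apply Set.Subset.antisymm _ (Set.singleton_subset_iff.2 (M.mem_closure_self e he))
    intro x hx
    exact eq_of_mem_closure_singleton hs (M.closure_subset_ground _ hx) he hx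
  have hflat : M.IsFlat {e} := by
    rw [Matroid.isFlat_iff_closure_eq, hcl]
  have h1 := htan {e} hflat (Set.singleton_nonempty e)
  have h2 : M.contract {e} = (M.contract {e}).delete ∅ := by
    rw [Matroid.delete_empty]
  rw [h2, minor_critExp_le_iff hrep k {e} ∅ (Set.singleton_subset_iff.2 he)] at h1
  obtain ⟨f, -, hf⟩ := h1
  refine ⟨f, fun x hx => hf x ?_⟩
  rw [Matroid.restrict_ground_eq] at hx
  have hxe : x ≠ e := by
    rintro rfl
    exact heY hx
  exact ⟨⟨hY.1 hx, by simpa using hxe⟩, by simp⟩

/-- **Modular hyperplanes.** -/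
theorem result :
    -- (1) simple matroids with a modular hyperplane, representable or not
    (∀ {α : Type u} (M : Matroid α) (H : Set α), M.Finite → IsSimple M →
      IsModularHyperplane M H → ∀ m : ℕ, 1 ≤ m → m ≤ (M.E \ H).ncard →
        ∃ Y ⊆ M.E, (Y \ H).ncard = m ∧ Y.ncard ≤ (m + 1).choose 2 ∧
          NormalAt m (M.restrict Y) ∧ (charPoly (M.restrict Y)).eval (m : ℤ) = 0) ∧
    -- (2) matroids that are minimal with `p(M; m) ≤ 0`, representable or not
    (∀ {α : Type u} (M : Matroid α) (H : Set α), M.Finite → IsSimple M →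
      IsModularHyperplane M H → ∀ m : ℕ, 1 ≤ m → (charPoly M).eval (m : ℤ) ≤ 0 →
        (∀ Y, Y ⊂ M.E → 0 < (charPoly (M.restrict Y)).eval (m : ℤ)) →
        NormalAt m M ∧ (charPoly M).eval (m : ℤ) = 0 ∧ (M.E \ H).ncard = m) ∧
    -- (3) all blocks over a finite field, minimal or not
    (∀ (F : Type) [Field F] [Finite F] (k : ℕ) {α : Type u} (M : Matroid α) (H : Set α),
      M.Finite → IsSimple M → Representable F M → (k : ℕ∞) < critExp M (Nat.card F) →
      IsModularHyperplane M H →
      (k : ℕ∞) < critExp (M.restrict H) (Nat.card F) ∨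
        ((M.E \ H).ncard = (Nat.card F) ^ k ∧ ∃ Y ⊆ M.E, M.E \ H ⊆ Y ∧
          Y.ncard ≤ ((Nat.card F) ^ k + 1).choose 2 ∧ IsNormal (Nat.card F) k (M.restrict Y) ∧
          (k : ℕ∞) < critExp (M.restrict Y) (Nat.card F))) ∧
    -- (4) the answer to Q1
    (∀ (F : Type) [Field F] [Finite F] (k : ℕ) {α : Type u} (M : Matroid α),
      IsTangentialBlock F k M → (∃ H, IsModularHyperplane M H) → IsNormal (Nat.card F) k M) := by
  refine ⟨?_, ?_, ?_, ?_⟩
  · intro α M H hfin hs hH m hm hcard
    obtain ⟨Y, h1, h2, h3, h4, h5⟩ := modular_restriction M hs hH hm hcard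
    exact ⟨Y, h1, h2, h5, h3, h4⟩
  · intro α M H hfin hs hH m hm hp hmin
    obtain ⟨h1, h2, h3, -⟩ := minimal_of_modular M hs hH hm hp hmin
    exact ⟨h1, h2, h3⟩
  · intro F _ _ k α M H hfin hs hrep hk hH
    exact modular_block M hs hrep hk hH
  · intro F _ _ k α M hM hH
    exact tangential_normal F k M hM hH

end Pool.Agent.Results.MP_4e9c6d_co.ModularHyperplanes
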